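import Mathlib
import Pool.Agent.H80.MultiAff

open MvPolynomial Cardinal

theorem Pool.Agent.Results.MP_12b847_ag.Unbounded.result (m : ℕ) :
    ∃ P Q : MvPolynomial (Fin (4 * m + 1)) ℝ,
      (∀ i, P.degreeOf i ≤ 1) ∧ (∀ i, Q.degreeOf i ≤ 1) ∧
      P.totalDegree ≤ 4 ∧ Q.totalDegree ≤ 4 ∧
      (2 ^ m : Cardinal) ≤
        #(ConnectedComponents {x : Fin (4 * m + 1) → ℝ | eval x P = 0 ∧ eval x Q = 0}) := by
  let e : Option (Fin m × Fin 4) ≃ Fin (4 * m + 1) := Fintype.equivFinOfCardEq (by simp; ring)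
  open Pool.Agent.H80.MultiAff in
  exact ⟨P e, Q e, (MA_P e).1, (MA_Q e).1, (MA_P e).2, (MA_Q e).2, card_ge e⟩
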